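import Mathlib

set_option autoImplicit false

namespace Pool.Agent.Results.MP_408802_co.NoConstant

open Finset Relation

open Classical in
/-- `R(G, w)`, where `D u v` says that one step from `u` to `v` is allowed. -/
noncomputable def R {V : Type} [Fintype V] (D : V → V → Prop) (w : V → ℕ) : ℕ :=
  2 * ∑ v, (w v).choose 2 + ∑ u, ∑ v, if u ≠ v ∧ ReflTransGen D u v then w u * w v else 0

/-- `O` orients every edge of the symmetric relation `E` in exactly one direction. -/
def IsOrientation {V : Type} (E O : V → V → Prop) : Prop :=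
  ∀ u v, (E u v ↔ O u v ∨ O v u) ∧ ¬ (O u v ∧ O v u)

variable {k : ℕ}

def fl (i : Fin k) (x : Fin k → Bool) : Fin k → Bool := Function.update x i (!x i)

theorem fl_fl (i : Fin k) (x : Fin k → Bool) : fl i (fl i x) = x := by simp [fl]

theorem fl_ne (i : Fin k) (x : Fin k → Bool) : fl i x ≠ x := fun h => by
  simpa [fl] using congrFun h i

def E (k : ℕ) (u v : Fin (k + 2) × (Fin k → Bool)) : Prop :=
  ∃ i : Fin k, u.1.1 = i + 1 ∧ v = (u.1, fl i u.2)

def A (k : ℕ) (u v : Fin (k + 2) × (Fin k → Bool)) : Prop := v.1.1 = u.1.1 + 1 ∧ v.2 = u.2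

def w (k : ℕ) (u : Fin (k + 2) × (Fin k → Bool)) : ℕ := if u.1 = 0 ∨ u.1 = Fin.last _ then 1 else 0

open Classical in
noncomputable def N (D : Fin (k + 2) × (Fin k → Bool) → Fin (k + 2) × (Fin k → Bool) → Prop)
    (u : Fin (k + 2) × (Fin k → Bool)) : Finset (Fin k → Bool) :=
  {y | ReflTransGen D u (Fin.last _, y)}

theorem R_eq (D : Fin (k + 2) × (Fin k → Bool) → Fin (k + 2) × (Fin k → Bool) → Prop)
    (h : ∀ u v, D u v → A k u v ∨ E k u v) : R D (w k) = ∑ x, #(N D (0, x)) := by
  classical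
  have h0 : ∀ u v, ReflTransGen D u v → v.1 = 0 ∨ u.1 = Fin.last _ → u = v := fun u v r hv => by
    rcases hv with hv | hv
    · rcases r.cases_tail with e | ⟨z, -, e⟩
      · exact e.symm
      · rcases h _ _ e with ⟨e', -⟩ | ⟨i, e', rfl⟩
        · simp [hv] at e'
        · rw [show z.1 = 0 from hv] at e'
          simp at e'
    · rcases r.cases_head with e | ⟨z, e, -⟩
      · exact e
      · have := z.1.2
        rcases h _ _ e with ⟨e, -⟩ | ⟨i, e, -⟩ <;> rw [hv, Fin.val_last] at e <;> omega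
  have n : (0 : Fin (k + 2)) ≠ Fin.last _ := Fin.last_pos'.ne
  rw [R, sum_eq_zero fun v _ => by unfold w; split_ifs <;> rfl, mul_zero, zero_add,
    Fintype.sum_prod_type, sum_eq_single_of_mem 0 (mem_univ _)]
  · refine sum_congr rfl fun x _ => ?_
    rw [Fintype.sum_prod_type, sum_eq_single_of_mem (Fin.last _) (mem_univ _), N, card_filter]
    · exact sum_congr rfl fun y _ => by simp [w, n]
    · refine fun l _ hl => sum_eq_zero fun y _ => ?_
      split_ifs with c
      swap
      · rfl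
      rw [w, w, if_neg (not_or.2 ⟨fun e => c.1 (h0 _ _ c.2 (.inl e)), hl⟩ :
        ¬ ((l, y).1 = 0 ∨ (l, y).1 = Fin.last _)), mul_zero]
  · refine fun l _ hl => sum_eq_zero fun y _ => sum_eq_zero fun v _ => ?_
    split_ifs with c
    swap
    · rfl
    rw [w, if_neg (not_or.2 ⟨hl, fun e => c.1 (h0 _ _ c.2 (.inr e))⟩), zero_mul]

theorem full (x y : Fin k → Bool) :
    ReflTransGen (fun u v => A k u v ∨ E k u v) (0, x) (Fin.last _, y) := by
  have : ∀ j (hj : j ≤ k), ReflTransGen (fun u v => A k u v ∨ E k u v) (0, x)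
      (⟨j + 1, by omega⟩, fun i => if i.1 < j then y i else x i) := fun j => by
    induction j with
    | zero => exact fun _ => .single (.inl ⟨rfl, by simp⟩)
    | succ j ih =>
      intro hj
      by_cases e : y ⟨j, hj⟩ = x ⟨j, hj⟩
      · refine (ih (by omega)).tail (.inl ⟨rfl, funext fun i => ?_⟩)
        by_cases c : i = ⟨j, hj⟩
        · simp [c, e]
        · have : i.1 ≠ j := fun h => c (Fin.ext h)
          simp only [show i.1 < j + 1 ↔ i.1 < j by omega]
      · refine ((ih (by omega)).tail (.inr ⟨⟨j, hj⟩, rfl, rfl⟩)).tail (.inl ⟨rfl, funext fun i => ?_⟩)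
        by_cases c : i = ⟨j, hj⟩
        · simpa [c, fl] using Bool.eq_not_iff.2 e
        · have : i.1 ≠ j := fun h => c (Fin.ext h)
          simp only [show i.1 < j + 1 ↔ i.1 < j by omega, fl, Function.update_of_ne c]
  simpa [Fin.last] using this k le_rfl

theorem bound (O : Fin (k + 2) × (Fin k → Bool) → Fin (k + 2) × (Fin k → Bool) → Prop)
    (hO : IsOrientation (E k) O) :
    3 ^ k * (∑ x, #(N (fun u v => A k u v ∨ O u v) (0, x))) ^ 2 ≤ 32 ^ k := by
  classical
  set D := fun u v => A k u v ∨ O u v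
  have st : ∀ (l m : Fin (k + 2)) x, m.1 = l.1 + 1 → ∀ y ∈ N D (l, x),
      y ∈ N D (m, x) ∨ ∃ z, O (l, x) z ∧ y ∈ N D z := fun l m x e y hy => by
    rcases (mem_filter.1 hy).2.cases_head with c | ⟨z, c | c, r⟩
    · have := m.2
      have := congrArg (·.1.1) c
      simp only [Fin.val_last] at this
      omega
    · rw [show z = (m, x) from Prod.ext (Fin.ext (c.1.trans e.symm)) c.2] at r
      exact .inl (mem_filter.2 ⟨mem_univ _, r⟩)
    · exact .inr ⟨z, c, mem_filter.2 ⟨mem_univ _, r⟩⟩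
  have oe : ∀ (l : Fin (k + 2)) (i : Fin k) x z, l.1 = i + 1 → O (l, x) z → z = (l, fl i x) :=
    fun l i x z e c => by
      obtain ⟨j, k1, k2⟩ := (hO _ _).1.2 (.inl c)
      rw [k2, show j = i from Fin.ext (by simp only at k1; omega)]
  have pr : ∀ (l m : Fin (k + 2)) (i : Fin k) x, l.1 = i + 1 → m.1 = l.1 + 1 →
      O (l, x) (l, fl i x) → 3 * (#(N D (l, x)) ^ 2 + #(N D (l, fl i x)) ^ 2) ≤
        8 * (#(N D (m, x)) ^ 2 + #(N D (m, fl i x)) ^ 2) := fun l m i x e e' c => by
    have s1 : N D (l, fl i x) ⊆ N D (m, fl i x) := fun y hy =>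
      (st l m _ e' y hy).resolve_right fun ⟨z, k1, _⟩ =>
        (hO _ _).2 ⟨c, by rwa [oe l i _ z e k1, fl_fl] at k1⟩
    have s2 : N D (l, x) ⊆ N D (m, x) ∪ N D (m, fl i x) := fun y hy =>
      mem_union.2 ((st l m _ e' y hy).imp_right fun ⟨z, k1, k2⟩ => s1 (oe l i _ z e k1 ▸ k2))
    have t1 := Nat.pow_le_pow_left (card_le_card s1) 2
    have t2 := Nat.pow_le_pow_left ((card_le_card s2).trans (card_union_le _ _)) 2
    zify at t1 t2 ⊢
    nlinarith [sq_nonneg (3 * (#(N D (m, x)) : ℤ) - 2 * #(N D (m, fl i x))),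
      sq_nonneg (#(N D (m, x)) : ℤ)]
  have ind : ∀ j ≤ k, ∀ l : Fin (k + 2), l.1 + j = k + 1 →
      3 ^ j * ∑ x, #(N D (l, x)) ^ 2 ≤ 8 ^ j * 2 ^ k := fun j => by
    induction j with
    | zero =>
      intro _ l hl
      have : ∀ x, #(N D (l, x)) ^ 2 ≤ 1 := fun x => pow_le_one₀ (Nat.zero_le _)
        (card_le_one_iff_subset_singleton.2 ⟨x, fun y hy => by
          rcases (mem_filter.1 hy).2.cases_head with c | ⟨z, c | c, -⟩
          · exact mem_singleton.2 (congrArg Prod.snd c).symm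
          · have := z.1.2
            have := c.1
            simp only at this
            omega
          · obtain ⟨i, c, -⟩ := (hO _ _).1.2 (.inl c)
            simp only at c
            omega⟩)
      simpa using sum_le_card_nsmul univ _ 1 fun x _ => this x
    | succ j ih =>
      intro hj l hl
      let m : Fin (k + 2) := ⟨l + 1, by omega⟩
      let i : Fin k := ⟨l - 1, by omega⟩
      have e : l.1 = i + 1 := by simp only [i]; omega
      have t := ih (by omega) m (by simp only [m]; omega)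
      have s : ∀ l, ∑ x, (#(N D (l, x)) ^ 2 + #(N D (l, fl i x)) ^ 2) =
          2 * ∑ x, #(N D (l, x)) ^ 2 := fun l => by
        rw [sum_add_distrib, two_mul]
        exact congrArg _ (Equiv.sum_comp (Function.Involutive.toPerm _ (fl_fl i))
          fun x => #(N D (l, x)) ^ 2)
      have u := sum_le_sum (s := univ) fun x _ => show 3 * (#(N D (l, x)) ^ 2 +
          #(N D (l, fl i x)) ^ 2) ≤ 8 * (#(N D (m, x)) ^ 2 + #(N D (m, fl i x)) ^ 2) by
        rcases (hO (l, x) (l, fl i x)).1.1 ⟨i, e, rfl⟩ with c | c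
        · exact pr l m i x e rfl c
        · have := pr l m i (fl i x) e rfl (by rwa [fl_fl])
          rw [fl_fl] at this
          omega
      rw [← mul_sum, ← mul_sum, s, s] at u
      rw [pow_succ, pow_succ, mul_assoc, mul_right_comm]
      refine (Nat.mul_le_mul_left _ (show _ ≤ (∑ x, #(N D (m, x)) ^ 2) * 8 by omega)).trans ?_
      rw [← mul_assoc]
      exact Nat.mul_le_mul_right _ t
  have t := ind k le_rfl 1 (by simp [add_comm])
  have s : ∑ x, #(N D (0, x)) ≤ ∑ x, #(N D (1, x)) := sum_le_sum fun x _ => card_le_card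
    fun y hy => (st 0 1 x (by simp) y hy).resolve_right fun ⟨z, c, _⟩ => by
      obtain ⟨i, c, -⟩ := (hO _ _).1.2 (.inl c)
      simp at c
  have c := sq_sum_le_card_mul_sum_sq (s := univ) (f := fun x => #(N D (1, x)))
  rw [card_univ, Fintype.card_fun, Fintype.card_bool, Fintype.card_fin] at c
  refine (Nat.mul_le_mul_left _ ((Nat.pow_le_pow_left s 2).trans c)).trans ?_
  rw [mul_left_comm, show 32 = 2 * (8 * 2) by rfl, mul_pow, mul_pow]
  exact Nat.mul_le_mul_left _ t

/-- No constant fraction of the weighted reachability survives in every mixed graph. -/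
theorem result (α : ℝ) (hα : 0 < α) : ∃ (V : Type) (_ : Fintype V) (E A : V → V → Prop)
    (w : V → ℕ), (∀ u v, E u v → E v u) ∧ (∀ v, ¬ E v v) ∧ (∀ v, ¬ A v v) ∧
      ∀ O, IsOrientation E O →
        (R (fun u v => A u v ∨ O u v) w : ℝ) < α * R (fun u v => A u v ∨ E u v) w := by
  obtain ⟨k, hk⟩ := exists_pow_lt_of_lt_one (pow_pos hα 2) (show (2 / 3 : ℝ) < 1 by norm_num)
  refine ⟨_, inferInstance, E k, A k, w k, ?_, ?_, fun v h => by simpa using h.1, fun O hO => ?_⟩
  · rintro u v ⟨i, h, rfl⟩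
    exact ⟨i, h, by simp [fl_fl]⟩
  · rintro v ⟨i, -, h⟩
    exact fl_ne i _ (congrArg Prod.snd h).symm
  · rw [R_eq _ fun u v h => h.imp_right fun c => (hO _ _).1.2 (.inl c), R_eq _ fun _ _ h => h]
    have e : ∑ x, #(N (fun u v => A k u v ∨ E k u v) (0, x)) = 2 ^ k * 2 ^ k := by
      simp [N, full]
    have b := (Nat.cast_le (α := ℝ)).2 (bound O hO)
    rw [Nat.cast_mul, Nat.cast_pow, Nat.cast_pow, Nat.cast_pow, Nat.cast_ofNat, Nat.cast_ofNat] at b
    rw [e]
    refine lt_of_pow_lt_pow_left₀ 2 (by positivity) (lt_of_mul_lt_mul_left (b.trans_lt ?_)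
      (by positivity))
    have : (32 : ℝ) ^ k = 3 ^ k * ((2 / 3) ^ k * (2 ^ k * 2 ^ k) ^ 2) := by
      rw [sq]
      simp only [← mul_pow]
      norm_num
    rw [this, mul_pow α]
    push_cast
    gcongr

end Pool.Agent.Results.MP_408802_co.NoConstant
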